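import Pool.Agent.Helper57.KE.St

/-!
# Project KE (MP_45ac3c_an), module SCH: Schur test with two vectors

Adapted from `KB.schur` (`Pool/Agent/Helper65/RG2.lean`).
-/

set_option autoImplicit false

open scoped BigOperators
open Finset

namespace Pool.Agent.Helper73.KE

open Pool.Agent.Helper57.KE Pool.Agent.Helper57.KR Pool.Agent.Helper65.RG

private theorem csq {ι : Type} [Fintype ι] (u v : ι → ℝ) :
    ∑ i, u i * v i ≤ √(∑ i, u i ^ 2) * √(∑ i, v i ^ 2) :=
  Real.sum_mul_le_sqrt_mul_sqrt _ _ _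

/-- **SCH.** -/
theorem hSCH : StSCH := by
  intro n K p r l hl hK0 hp hr h1 h2
  intro x y hx hy
  have key : ∑ i, ∑ j, K i j * x j * y i ≤
      √(∑ q : Fin n × Fin n, (√(K q.1 q.2 * p q.2 / r q.1) * y q.1) ^ 2) *
      √(∑ q : Fin n × Fin n, (√(K q.1 q.2 * r q.1 / p q.2) * x q.2) ^ 2) := by
    have := csq (ι := Fin n × Fin n) (fun q => √(K q.1 q.2 * p q.2 / r q.1) * y q.1)
      (fun q => √(K q.1 q.2 * r q.1 / p q.2) * x q.2)
    refine le_trans (le_of_eq ?_) this
    rw [Fintype.sum_prod_type]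
    refine sum_congr rfl fun i _ => ?_
    refine sum_congr rfl fun j _ => ?_
    have e1 : √(K i j * p j / r i) * √(K i j * r i / p j) = K i j := by
      rw [← Real.sqrt_mul (by have := hK0 i j; have := hr i; have := hp j; positivity)]
      have : K i j * p j / r i * (K i j * r i / p j) = K i j ^ 2 := by
        have := (hr i).ne'
        have := (hp j).ne'
        field_simp
      rw [this, Real.sqrt_sq (hK0 i j)]
    calc K i j * x j * y i = (√(K i j * p j / r i) * √(K i j * r i / p j)) * x j * y i := by rw [e1]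
      _ = _ := by ring
  have s1 : ∑ q : Fin n × Fin n, (√(K q.1 q.2 * p q.2 / r q.1) * y q.1) ^ 2 ≤
      l * ∑ i, y i ^ 2 := by
    rw [Fintype.sum_prod_type, mul_sum]
    refine sum_le_sum fun i _ => ?_
    have : ∀ j, (√(K i j * p j / r i) * y i) ^ 2 = (K i j * p j) * (y i ^ 2 / r i) := by
      intro j
      rw [mul_pow, Real.sq_sqrt (by have := hK0 i j; have := hr i; have := hp j; positivity)]
      ring
    simp only [this]
    rw [← sum_mul]
    calc (∑ j, K i j * p j) * (y i ^ 2 / r i) ≤ (l * r i) * (y i ^ 2 / r i) :=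
          mul_le_mul_of_nonneg_right (h1 i) (div_nonneg (sq_nonneg _) (hr i).le)
      _ = l * y i ^ 2 := by have := (hr i).ne'; field_simp
  have s2 : ∑ q : Fin n × Fin n, (√(K q.1 q.2 * r q.1 / p q.2) * x q.2) ^ 2 ≤
      l * ∑ i, x i ^ 2 := by
    rw [Fintype.sum_prod_type_right, mul_sum]
    refine sum_le_sum fun j _ => ?_
    have : ∀ i, (√(K i j * r i / p j) * x j) ^ 2 = (K i j * r i) * (x j ^ 2 / p j) := by
      intro i
      rw [mul_pow, Real.sq_sqrt (by have := hK0 i j; have := hr i; have := hp j; positivity)]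
      ring
    simp only [this]
    rw [← sum_mul]
    calc (∑ i, K i j * r i) * (x j ^ 2 / p j) ≤ (l * p j) * (x j ^ 2 / p j) :=
          mul_le_mul_of_nonneg_right (h2 j) (div_nonneg (sq_nonneg _) (hp j).le)
      _ = l * x j ^ 2 := by have := (hp j).ne'; field_simp
  refine key.trans ((mul_le_mul (Real.sqrt_le_sqrt s1) (Real.sqrt_le_sqrt s2)
    (Real.sqrt_nonneg _) (Real.sqrt_nonneg _)).trans (le_of_eq ?_))
  rw [Real.sqrt_mul hl, Real.sqrt_mul hl]
  have h3 : √l * √l = l := Real.mul_self_sqrt hl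
  calc √l * √(∑ i, y i ^ 2) * (√l * √(∑ i, x i ^ 2))
      = (√l * √l) * (√(∑ i, x i ^ 2) * √(∑ i, y i ^ 2)) := by ring
    _ = _ := by rw [h3]

end Pool.Agent.Helper73.KE
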